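import Pool.Agent.Helper9.CG.Algebra
import Pool.Agent.Helper7.CG.Count
import Pool.Agent.Helper18.CG.Cross
import Pool.Agent.Helper72.CG.Keep

/-!
# Project CG, module CG-E: one round
-/

set_option autoImplicit false

namespace Pool.Agent.Helper75.CG

open scoped Classical
open Finset
open Pool.Agent.Helper65.CliqueGame

namespace RoundAux

variable {V : Type} [Fintype V] {ι : Type}

theorem mass_nonneg {φ : Finset V → ℝ} (h0 : ∀ A, 0 ≤ φ A) (S : Finset V) : 0 ≤ mass φ S :=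
  Finset.sum_nonneg fun A _ => h0 A

theorem mass_claim1_le {μ : ℝ} (hμ : 0 ≤ μ) {φ : Finset V → ℝ} (h0 : ∀ A, 0 ≤ φ A)
    (κ S : Finset V) : mass (claim1 μ κ φ) S ≤ (1 + μ) * mass φ S := by
  rw [mass_claim1]
  have h := mass_anti h0 (Finset.subset_union_left : S ⊆ S ∪ κ)
  nlinarith

theorem mass_kill1_le {φ : Finset V → ℝ} (h0 : ∀ A, 0 ≤ φ A)
    (κ S : Finset V) : mass (kill1 κ φ) S ≤ mass φ S := by
  rw [mass_kill1]
  linarith [mass_nonneg h0 (S ∪ κ)]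

omit [Fintype V] in
theorem claims_empty (μ : ℝ) (κ : ι → Finset V) (f : Finset V → ℝ) :
    claims μ κ ∅ f = f := by
  funext A
  simp [claims]

omit [Fintype V] in
theorem claims_insert (μ : ℝ) (κ : ι → Finset V) {I : Finset ι} {i : ι} (hi : i ∉ I)
    (f : Finset V → ℝ) :
    claims μ κ (insert i I) f = claim1 μ (κ i) (claims μ κ I f) := by
  funext A
  unfold claims claim1
  rw [Finset.filter_insert]
  split_ifs with h
  · rw [Finset.card_insert_of_notMem (fun h' => hi (Finset.mem_filter.1 h').1), pow_succ]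
    ring
  · rfl

omit [Fintype V] in
theorem kills_empty (κ : ι → Finset V) (f : Finset V → ℝ) : kills κ ∅ f = f := by
  funext A
  simp [kills]

omit [Fintype V] in
theorem kills_insert (κ : ι → Finset V) (J : Finset ι) (j : ι) (f : Finset V → ℝ) :
    kills κ (insert j J) f = kill1 (κ j) (kills κ J f) := by
  funext A
  simp only [kills, kill1]
  by_cases h : κ j ⊆ A
  · rw [if_pos h, if_pos ⟨j, mem_insert_self _ _, h⟩]
  · rw [if_neg h]
    by_cases h' : ∃ i ∈ J, κ i ⊆ A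
    · obtain ⟨i, hi, hi'⟩ := h'
      rw [if_pos ⟨i, mem_insert_of_mem hi, hi'⟩, if_pos ⟨i, hi, hi'⟩]
    · rw [if_neg h', if_neg]
      rintro ⟨i, hi, hi'⟩
      rcases mem_insert.1 hi with rfl | hi
      · exact h hi'
      · exact h' ⟨i, hi, hi'⟩

theorem good_mono {K K' : ℝ} {SS : Finset (Finset V)} {φ cap : Finset V → ℝ}
    (hG : Good K SS φ cap) (h : K ≤ K') : Good K' SS φ cap :=
  ⟨hG.nonneg, hG.pos, fun A hA => (hG.load A hA).trans h⟩

theorem exists_top (act : Finset ι) (f : ι → ℝ) (k : ℕ) :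
    ∃ I ⊆ act, I.card = min k act.card ∧ ∀ i ∈ I, ∀ j ∈ act \ I, f j ≤ f i := by
  induction k with
  | zero => exact ⟨∅, empty_subset _, by simp, fun i hi => (notMem_empty i hi).elim⟩
  | succ k ih =>
    obtain ⟨I, hI, hc, hf⟩ := ih
    rcases (act \ I).eq_empty_or_nonempty with he | he
    · have h1 : I = act := subset_antisymm hI (sdiff_eq_empty_iff_subset.1 he)
      subst h1
      exact ⟨I, Subset.rfl, by omega, fun i _ j hj => by simp at hj⟩
    · obtain ⟨x, hx, hmax⟩ := exists_max_image (act \ I) f he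
      have hx' := mem_sdiff.1 hx
      have hlt : I.card < act.card := card_lt_card ⟨hI, fun h => hx'.2 (h hx'.1)⟩
      refine ⟨insert x I, insert_subset hx'.1 hI, ?_, ?_⟩
      · rw [card_insert_of_notMem hx'.2]
        omega
      · intro i hi j hj
        have hj1 := mem_sdiff.1 hj
        have hj2 : j ∈ act \ I := mem_sdiff.2 ⟨hj1.1, fun h => hj1.2 (mem_insert_of_mem h)⟩
        rcases mem_insert.1 hi with rfl | hi
        · exact hmax j hj2
        · exact hf i hi j hj2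

/-- the constant in the second order terms -/
noncomputable def XX (m b : ℕ) : ℝ := 2 ^ b * (2 ^ m * 2 ^ m)

/-- the constant in the cross terms -/
noncomputable def EE (m b : ℕ) : ℝ := 8 * (1 + m) ^ 2 * 2 ^ m * XX m b

/-- the constant in the error terms -/
noncomputable def FF (m b : ℕ) : ℝ := 3 * m ^ 2 * EE m b

theorem two_pow_le_XX (m b : ℕ) : (2 : ℝ) ^ m ≤ XX m b := by
  unfold XX
  have h1 : (1 : ℝ) ≤ 2 ^ b := one_le_pow₀ (by norm_num)
  have h2 : (1 : ℝ) ≤ 2 ^ m := one_le_pow₀ (by norm_num)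
  have h3 : (2 : ℝ) ^ m ≤ 2 ^ m * 2 ^ m := le_mul_of_one_le_left (by positivity) h2
  exact h3.trans (le_mul_of_one_le_left (by positivity) h1)

theorem one_le_XX (m b : ℕ) : 1 ≤ XX m b :=
  (one_le_pow₀ (by norm_num)).trans (two_pow_le_XX m b)

theorem XX_le_EE (m b : ℕ) : XX m b ≤ EE m b := by
  unfold EE
  have h0 := one_le_XX m b
  have h1 : (1 : ℝ) ≤ (1 + m) ^ 2 := one_le_pow₀ (by simp)
  have h2 : (1 : ℝ) ≤ 2 ^ m := one_le_pow₀ (by norm_num)
  have h3 : (1 : ℝ) ≤ 8 * (1 + m) ^ 2 * 2 ^ m := by nlinarith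
  exact le_mul_of_one_le_left (by linarith) h3

/-- the hypotheses which do not change -/
structure Hyp (m b : ℕ) (φ : Finset V → ℝ) (act : Finset ι)
    (κ : ι → Finset V) (μ : ℕ) (ν : ℝ) (g1 g2 : ι → ℝ) : Prop where
  m1 : 1 ≤ m
  μm : μ ≤ m
  ν0 : 0 ≤ ν
  card : ∀ i ∈ act, (κ i).card ≤ b
  nn : ∀ A, 0 ≤ φ A
  g1 : ∀ i ∈ act, mass φ (κ i) ≤ g1 i
  g2n : ∀ i ∈ act, 0 ≤ g2 i
  g2 : ∀ i ∈ act, ∀ j ∈ act, i ≠ j → mass φ (κ i ∪ κ j) ≤ g2 i

/-- the invariant -/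
structure Inv (m b : ℕ) (SS : Finset (Finset V)) (φ cap : Finset V → ℝ) (act : Finset ι)
    (κ : ι → Finset V) (μ : ℕ) (ν : ℝ) (g1 g2 : ι → ℝ) (K : ℝ) (P : Finset ι) (G : ℝ)
    (φ' cap' : Finset V → ℝ) : Prop where
  sub : P ⊆ act
  good : Good K SS φ' cap'
  slope : SlopeA ν SS φ' cap' (act \ P) κ (μ : ℝ)
  massb : ∀ S, mass φ' S ≤ K * mass φ S
  dd : ∀ j ∈ act \ P, |DD SS φ' cap' (κ j) - DD SS φ cap (κ j)| ≤
    EE m b * ∑ i ∈ P, (ν * (g1 i + g1 j) + g2 i)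
  pp : PP SS φ cap + G - (P.card : ℝ) * FF m b * ∑ i ∈ P, (ν * g1 i + g2 i) ≤ PP SS φ' cap'

section Steps

variable {m b : ℕ} {SS : Finset (Finset V)} {φ cap : Finset V → ℝ} {act : Finset ι}
    {κ : ι → Finset V} {μ : ℕ} {ν : ℝ} {g1 g2 : ι → ℝ} {K : ℝ} {P : Finset ι} {G : ℝ}
    {φ' cap' : Finset V → ℝ}

theorem Hyp.g1n (H : Hyp m b φ act κ μ ν g1 g2) {i : ι} (hi : i ∈ act) : 0 ≤ g1 i :=
  (mass_nonneg H.nn _).trans (H.g1 i hi)

theorem Inv.rr (h : Inv m b SS φ cap act κ μ ν g1 g2 K P G φ' cap')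
    (H : Hyp m b φ act κ μ ν g1 g2) (hK1 : 1 ≤ K) (hK2 : K ≤ 2 ^ m) {i : ι} (hi : i ∈ act \ P) :
    RR SS φ' cap' (κ i) ≤ ν * XX m b * g1 i := by
  have hi' := (mem_sdiff.1 hi).1
  have h1 := RR_le h.good H.ν0 (h.slope.slope (Nat.cast_nonneg μ) h.good.pos hi)
  have h2 : (2 : ℝ) ^ (κ i).card ≤ 2 ^ b := pow_le_pow_right₀ (by norm_num) (H.card i hi')
  have h3 : mass φ' (κ i) ≤ 2 ^ m * g1 i :=
    (h.massb _).trans (mul_le_mul hK2 (H.g1 i hi') (mass_nonneg H.nn _) (by positivity))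
  have h4 : 0 ≤ mass φ' (κ i) := mass_nonneg h.good.nonneg _
  have h5 := H.g1n hi'
  calc RR SS φ' cap' (κ i) ≤ ν * 2 ^ (κ i).card * K * mass φ' (κ i) := h1
    _ ≤ ν * 2 ^ b * 2 ^ m * (2 ^ m * g1 i) := by
        have hν := H.ν0
        gcongr
    _ = ν * XX m b * g1 i := by unfold XX; ring

theorem Inv.cross_bound (h : Inv m b SS φ cap act κ μ ν g1 g2 K P G φ' cap')
    (H : Hyp m b φ act κ μ ν g1 g2) (hK1 : 1 ≤ K) (hK2 : K ≤ 2 ^ m) {i j : ι}
    (hi : i ∈ act \ P) (hj : j ∈ act \ P) (hij : i ≠ j) :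
    8 * (1 + (μ : ℝ)) ^ 2 * K *
      (mass φ' (κ i ∪ κ j) + RR SS φ' cap' (κ i) + RR SS φ' cap' (κ j)) ≤
      EE m b * (ν * (g1 i + g1 j) + g2 i) := by
  have hi' := (mem_sdiff.1 hi).1
  have hj' := (mem_sdiff.1 hj).1
  have h1 := h.rr H hK1 hK2 hi
  have h2 := h.rr H hK1 hK2 hj
  have h3 : mass φ' (κ i ∪ κ j) ≤ XX m b * g2 i := by
    refine (h.massb _).trans ?_
    refine mul_le_mul (hK2.trans (two_pow_le_XX m b)) (H.g2 i hi' j hj' hij)
      (mass_nonneg H.nn _) (by linarith [one_le_XX m b])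
  have h4 : (1 : ℝ) + μ ≤ 1 + m := by
    have := H.μm
    have h5 : (μ : ℝ) ≤ m := by exact_mod_cast this
    linarith
  have h6 : mass φ' (κ i ∪ κ j) + RR SS φ' cap' (κ i) + RR SS φ' cap' (κ j) ≤
      XX m b * (ν * (g1 i + g1 j) + g2 i) := by
    linarith
  have h7 : 0 ≤ mass φ' (κ i ∪ κ j) + RR SS φ' cap' (κ i) + RR SS φ' cap' (κ j) := by
    have := mass_nonneg h.good.nonneg (κ i ∪ κ j)
    have := RR_nonneg (SS := SS) (φ := φ') h.good.pos (κ i)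
    have := RR_nonneg (SS := SS) (φ := φ') h.good.pos (κ j)
    linarith
  calc 8 * (1 + (μ : ℝ)) ^ 2 * K *
      (mass φ' (κ i ∪ κ j) + RR SS φ' cap' (κ i) + RR SS φ' cap' (κ j))
      ≤ 8 * (1 + (m : ℝ)) ^ 2 * 2 ^ m * (XX m b * (ν * (g1 i + g1 j) + g2 i)) := by
        gcongr
    _ = EE m b * (ν * (g1 i + g1 j) + g2 i) := by unfold EE; ring

theorem arith {m c X E W P a w : ℝ} (hm : 1 ≤ m) (hc0 : 0 ≤ c) (hc : c ≤ m) (hX : 0 ≤ X)
    (hXE : X ≤ E) (hW : 0 ≤ W) (hP0 : 0 ≤ P) (hP : P ≤ 2 * m) (ha : 0 ≤ a) (hw : a ≤ w) :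
    c * (E * (W + P * a)) + c ^ 2 * (X * a) ≤
      3 * m ^ 2 * E * (W + w) + P * (3 * m ^ 2 * E) * w := by
  have hE : 0 ≤ E := hX.trans hXE
  have h1 : c * (E * W) ≤ 3 * m ^ 2 * E * W := by
    have h2 : c ≤ 3 * m ^ 2 := by nlinarith
    calc c * (E * W) ≤ 3 * m ^ 2 * (E * W) := mul_le_mul_of_nonneg_right h2 (by positivity)
      _ = _ := by ring
  have h2 : c * (E * (P * a)) ≤ 2 * m ^ 2 * E * a := by
    calc c * (E * (P * a)) ≤ m * (E * ((2 * m) * a)) := by gcongr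
      _ = _ := by ring
  have h3 : c ^ 2 * (X * a) ≤ m ^ 2 * E * a := by
    calc c ^ 2 * (X * a) ≤ m ^ 2 * (E * a) := by gcongr
      _ = _ := by ring
  have h4 : 3 * m ^ 2 * E * a ≤ 3 * m ^ 2 * E * w := by gcongr
  have h5 : 0 ≤ P * (3 * m ^ 2 * E) * w := by
    have : 0 ≤ w := ha.trans hw
    positivity
  nlinarith

/-- the numerical part of the steps -/
theorem Inv.pp_bound (h : Inv m b SS φ cap act κ μ ν g1 g2 K P G φ' cap')
    (H : Hyp m b φ act κ μ ν g1 g2) (hK1 : 1 ≤ K) (hK2 : K ≤ 2 ^ m) (hP : P.card ≤ 2 * m)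
    {i : ι} (hi : i ∈ act \ P) {c : ℝ} (hc0 : 0 ≤ c) (hc : c ≤ m) :
    c * (EE m b * ∑ i' ∈ P, (ν * (g1 i' + g1 i) + g2 i')) + c ^ 2 * RR SS φ' cap' (κ i) +
      (P.card : ℝ) * FF m b * ∑ i ∈ P, (ν * g1 i + g2 i) ≤
      ((insert i P).card : ℝ) * FF m b * ∑ i ∈ insert i P, (ν * g1 i + g2 i) := by
  have hi' := mem_sdiff.1 hi
  have hs : ∑ i' ∈ P, (ν * (g1 i' + g1 i) + g2 i') =
      ∑ i' ∈ P, (ν * g1 i' + g2 i') + (P.card : ℝ) * (ν * g1 i) := by
    rw [← nsmul_eq_mul, ← sum_const, ← sum_add_distrib]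
    exact sum_congr rfl fun _ _ => by ring
  have hW : 0 ≤ ∑ i' ∈ P, (ν * g1 i' + g2 i') := sum_nonneg fun i' hi1 =>
    add_nonneg (mul_nonneg H.ν0 (H.g1n (h.sub hi1))) (H.g2n _ (h.sub hi1))
  have ha : 0 ≤ ν * g1 i := mul_nonneg H.ν0 (H.g1n hi'.1)
  have hw : ν * g1 i ≤ ν * g1 i + g2 i := le_add_of_nonneg_right (H.g2n i hi'.1)
  have hm : (1 : ℝ) ≤ m := by exact_mod_cast H.m1
  have hP' : (P.card : ℝ) ≤ 2 * m := by exact_mod_cast hP
  have key := arith hm hc0 hc (by linarith [one_le_XX m b]) (XX_le_EE m b) hW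
    (Nat.cast_nonneg P.card) hP' ha hw
  have h1 : c ^ 2 * RR SS φ' cap' (κ i) ≤ c ^ 2 * (XX m b * (ν * g1 i)) := by
    have h2 := h.rr H hK1 hK2 hi
    refine mul_le_mul_of_nonneg_left ?_ (sq_nonneg c)
    linarith
  rw [hs, sum_insert hi'.2, card_insert_of_notMem hi'.2]
  have hF : FF m b = 3 * (m : ℝ) ^ 2 * EE m b := rfl
  rw [hF]
  push_cast
  nlinarith

theorem Inv.dd_step (h : Inv m b SS φ cap act κ μ ν g1 g2 K P G φ' cap') {i : ι}
    (hi : i ∈ act \ P) {φ'' cap'' : Finset V → ℝ}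
    (hc : ∀ j ∈ act \ insert i P, |DD SS φ'' cap'' (κ j) - DD SS φ' cap' (κ j)| ≤
      EE m b * (ν * (g1 i + g1 j) + g2 i)) :
    ∀ j ∈ act \ insert i P, |DD SS φ'' cap'' (κ j) - DD SS φ cap (κ j)| ≤
      EE m b * ∑ i' ∈ insert i P, (ν * (g1 i' + g1 j) + g2 i') := by
  intro j hj
  have hj1 := mem_sdiff.1 hj
  have hj2 : j ∈ act \ P := mem_sdiff.2 ⟨hj1.1, fun h => hj1.2 (mem_insert_of_mem h)⟩
  rw [sum_insert (mem_sdiff.1 hi).2, mul_add]
  exact (abs_sub_le _ _ _).trans (add_le_add (hc j hj) (h.dd j hj2))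

theorem mem_of_insert {i j : ι} (hj : j ∈ act \ insert i P) : j ∈ act \ P ∧ i ≠ j := by
  have hj1 := mem_sdiff.1 hj
  exact ⟨mem_sdiff.2 ⟨hj1.1, fun h => hj1.2 (mem_insert_of_mem h)⟩,
    fun h => hj1.2 (h ▸ mem_insert_self _ _)⟩

theorem Inv.claim (h : Inv m b SS φ cap act κ μ ν g1 g2 K P G φ' cap')
    (H : Hyp m b φ act κ μ ν g1 g2) (hK1 : 1 ≤ K) (hK2 : K ≤ 2 ^ m) (hP : P.card ≤ 2 * m)
    {i : ι} (hi : i ∈ act \ P) :
    Inv m b SS φ cap act κ μ ν g1 g2 ((1 + (μ : ℝ)) * K) (insert i P)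
      (G + μ * DD SS φ cap (κ i)) (claim1 (μ : ℝ) (κ i) φ') (claim1 (μ : ℝ) (κ i) cap') := by
  have hi' := mem_sdiff.1 hi
  have hμ : (0 : ℝ) ≤ μ := Nat.cast_nonneg μ
  refine ⟨insert_subset hi'.1 h.sub, h.good.claim1 hμ (κ i), ?_, ?_, ?_, ?_⟩
  · rw [sdiff_insert]
    exact h.slope.claim hμ hi
  · intro S
    refine (mass_claim1_le hμ h.good.nonneg _ _).trans ?_
    rw [mul_assoc]
    exact mul_le_mul_of_nonneg_left (h.massb S) (by linarith)
  · refine h.dd_step hi fun j hj => ?_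
    obtain ⟨hj1, hj2⟩ := mem_of_insert hj
    exact (cross_claim h.good hK1 hμ (κ i) (κ j)).trans (h.cross_bound H hK1 hK2 hi hj1 hj2)
  · have h1 := PP_claim1 hμ (κ i) SS φ' cap' h.good.pos
    have h2 := h.pp_bound H hK1 hK2 hP hi hμ (by exact_mod_cast H.μm)
    have h3 := (abs_le.1 (h.dd i hi)).1
    have h4 := h.pp
    have h5 := mul_le_mul_of_nonneg_left h3 hμ
    rw [h1]
    linarith

theorem Inv.kill (h : Inv m b SS φ cap act κ μ ν g1 g2 K P G φ' cap')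
    (H : Hyp m b φ act κ μ ν g1 g2) (hK1 : 1 ≤ K) (hK2 : K ≤ 2 ^ m) (hP : P.card ≤ 2 * m)
    {i : ι} (hi : i ∈ act \ P) :
    Inv m b SS φ cap act κ μ ν g1 g2 K (insert i P)
      (G - DD SS φ cap (κ i)) (kill1 (κ i) φ') cap' := by
  have hi' := mem_sdiff.1 hi
  have hμ : (0 : ℝ) ≤ μ := Nat.cast_nonneg μ
  have hm : (1 : ℝ) ≤ m := by exact_mod_cast H.m1
  refine ⟨insert_subset hi'.1 h.sub, h.good.kill1 (κ i), ?_, ?_, ?_, ?_⟩
  · refine h.slope.mono hμ h.good.pos (fun A hA hA' => hA ?_)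
      (sdiff_subset_sdiff Subset.rfl (subset_insert _ _))
    unfold kill1
    rw [hA', ite_self]
  · exact fun S => (mass_kill1_le h.good.nonneg _ _).trans (h.massb S)
  · refine h.dd_step hi fun j hj => ?_
    obtain ⟨hj1, hj2⟩ := mem_of_insert hj
    refine (cross_kill h.good hK1 (κ i) (κ j)).trans (le_trans ?_
      (h.cross_bound H hK1 hK2 hi hj1 hj2))
    have h7 : 0 ≤ mass φ' (κ i ∪ κ j) + RR SS φ' cap' (κ i) + RR SS φ' cap' (κ j) := by
      have := mass_nonneg h.good.nonneg (κ i ∪ κ j)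
      have := RR_nonneg (SS := SS) (φ := φ') h.good.pos (κ i)
      have := RR_nonneg (SS := SS) (φ := φ') h.good.pos (κ j)
      linarith
    refine mul_le_mul_of_nonneg_right ?_ h7
    have h8 : (1 : ℝ) ≤ (1 + (μ : ℝ)) ^ 2 := one_le_pow₀ (by linarith)
    have h9 : 0 ≤ 8 * K := by linarith
    nlinarith
  · have h1 := PP_kill1 (κ i) SS φ' cap' h.good.pos
    have h2 := h.pp_bound H hK1 hK2 hP hi zero_le_one hm
    have h3 := (abs_le.1 (h.dd i hi)).2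
    have h4 := h.pp
    rw [h1]
    linarith

end Steps

theorem pow_bound {μ k m t : ℕ} (hμk : k * μ = m) (ht : t ≤ k) : (1 + (μ : ℝ)) ^ t ≤ 2 ^ m := by
  have h1 : (1 + (μ : ℝ)) ≤ 2 ^ μ := by
    have h2 : 1 + μ ≤ 2 ^ μ := by
      have := Nat.lt_two_pow_self (n := μ)
      omega
    exact_mod_cast h2
  calc (1 + (μ : ℝ)) ^ t ≤ (1 + (μ : ℝ)) ^ k := pow_le_pow_right₀ (by simp) ht
    _ ≤ (2 ^ μ) ^ k := pow_le_pow_left₀ (by positivity) h1 k
    _ = 2 ^ m := by rw [← pow_mul, mul_comm, hμk]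

end RoundAux

open RoundAux

theorem round (m b : ℕ) : ∃ C : ℝ, 0 < C ∧ ∀ {V ι : Type} [Fintype V] (SS : Finset (Finset V))
    (φ cap : Finset V → ℝ) (act : Finset ι) (κ : ι → Finset V) (μ k : ℕ) (ν : ℝ)
    (g1 g2 : ι → ℝ), 1 ≤ μ → 1 ≤ k → k * μ = m → 0 ≤ ν → ν ≤ 1 → (∀ i ∈ act, (κ i).card ≤ b) →
    Good 1 SS φ cap → SlopeA ν SS φ cap act κ μ →
    (∀ i ∈ act, 0 ≤ DD SS φ cap (κ i)) →
    (∀ i ∈ act, mass φ (κ i) ≤ g1 i) → (∀ i ∈ act, 0 ≤ g2 i) →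
    (∀ i ∈ act, ∀ j ∈ act, i ≠ j → mass φ (κ i ∪ κ j) ≤ g2 i) →
    ∃ I ⊆ act, I.card ≤ k ∧ (act.Nonempty → I.Nonempty) ∧
      ∀ J ⊆ act \ I, J.card ≤ m →
        PP SS φ cap - C * ∑ i ∈ I ∪ J, (ν * g1 i + g2 i) ≤
          PP SS (kills κ J (claims (μ : ℝ) κ I φ)) (claims (μ : ℝ) κ I cap) := by
  refine ⟨2 * m * FF m b + 1, ?_, ?_⟩
  · have h1 := one_le_XX m b
    have h2 := XX_le_EE m b
    have h3 : 0 ≤ FF m b := by
      unfold FF
      have : 0 ≤ EE m b := by linarith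
      positivity
    positivity
  intro V ι _ SS φ cap act κ μ k ν g1 g2 hμ1 hk1 hkμ hν0 hν1 hcard hG hSl hD hg1 hg2n hg2
  have hm1 : 1 ≤ m := by
    rw [← hkμ]
    exact Nat.mul_pos hk1 hμ1
  have hμm : μ ≤ m := by
    rw [← hkμ]
    exact Nat.le_mul_of_pos_left μ hk1
  have hkm : k ≤ m := by
    rw [← hkμ]
    exact Nat.le_mul_of_pos_right k hμ1
  have H : Hyp m b φ act κ μ ν g1 g2 := ⟨hm1, hμm, hν0, hcard, hG.nonneg, hg1, hg2n, hg2⟩
  obtain ⟨I, hI, hIc, hIf⟩ := exists_top act (fun i => DD SS φ cap (κ i)) k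
  have hIk : I.card ≤ k := hIc.le.trans (min_le_left _ _)
  refine ⟨I, hI, hIk, ?_, ?_⟩
  · intro ha
    rw [← card_pos, hIc]
    have := card_pos.2 ha
    omega
  intro J hJ hJc
  -- the claims
  have hcl : ∀ Cl : Finset ι, Cl ⊆ I →
      Inv m b SS φ cap act κ μ ν g1 g2 ((1 + (μ : ℝ)) ^ Cl.card) Cl
        (μ * ∑ i ∈ Cl, DD SS φ cap (κ i)) (claims (μ : ℝ) κ Cl φ) (claims (μ : ℝ) κ Cl cap) := by
    intro Cl
    induction Cl using Finset.induction_on with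
    | empty =>
      intro _
      rw [claims_empty, claims_empty]
      refine ⟨empty_subset _, by simpa using hG, by simpa using hSl, by simp, by simp, by simp⟩
    | insert i Cl hi ih =>
      intro hsub
      have hsub' : Cl ⊆ I := (subset_insert _ _).trans hsub
      have hc1 : Cl.card + 1 ≤ k := by
        rw [← card_insert_of_notMem hi]
        exact (card_le_card hsub).trans hIk
      have h1 := (ih hsub').claim H (one_le_pow₀ (by simp)) (pow_bound hkμ (by omega))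
        (by omega) (mem_sdiff.2 ⟨hI (hsub (mem_insert_self _ _)), hi⟩ : i ∈ act \ Cl)
      rw [claims_insert _ _ hi, claims_insert _ _ hi, sum_insert hi, card_insert_of_notMem hi]
      have e1 : (1 + (μ : ℝ)) ^ (Cl.card + 1) = (1 + (μ : ℝ)) * (1 + (μ : ℝ)) ^ Cl.card := by
        rw [pow_succ]
        ring
      have e2 : (μ : ℝ) * (DD SS φ cap (κ i) + ∑ i ∈ Cl, DD SS φ cap (κ i)) =
          μ * ∑ i ∈ Cl, DD SS φ cap (κ i) + μ * DD SS φ cap (κ i) := by ring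
      rw [e1, e2]
      exact h1
  -- the kills
  have hkl : ∀ Kl : Finset ι, Kl ⊆ J →
      Inv m b SS φ cap act κ μ ν g1 g2 ((1 + (μ : ℝ)) ^ I.card) (I ∪ Kl)
        (μ * ∑ i ∈ I, DD SS φ cap (κ i) - ∑ i ∈ Kl, DD SS φ cap (κ i))
        (kills κ Kl (claims (μ : ℝ) κ I φ)) (claims (μ : ℝ) κ I cap) := by
    intro Kl
    induction Kl using Finset.induction_on with
    | empty =>
      intro _
      rw [kills_empty, union_empty, sum_empty, sub_zero]
      exact hcl I Subset.rfl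
    | insert j Kl hj ih =>
      intro hsub
      have hsub' : Kl ⊆ J := (subset_insert _ _).trans hsub
      have hjJ := mem_sdiff.1 (hJ (hsub (mem_insert_self _ _)))
      have hc1 : (I ∪ Kl).card ≤ 2 * m := by
        have h1 := card_union_le I Kl
        have h2 := card_le_card hsub'
        omega
      have h1 := (ih hsub').kill H (one_le_pow₀ (by simp)) (pow_bound hkμ hIk) hc1
        (mem_sdiff.2 ⟨hjJ.1, fun h => (mem_union.1 h).elim hjJ.2 hj⟩ : j ∈ act \ (I ∪ Kl))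
      rw [kills_insert, union_insert, sum_insert hj]
      have e2 : (μ : ℝ) * ∑ i ∈ I, DD SS φ cap (κ i) -
          (DD SS φ cap (κ j) + ∑ i ∈ Kl, DD SS φ cap (κ i)) =
          μ * ∑ i ∈ I, DD SS φ cap (κ i) - ∑ i ∈ Kl, DD SS φ cap (κ i) - DD SS φ cap (κ j) := by
        ring
      rw [e2]
      exact h1
  have hfin := (hkl J Subset.rfl).pp
  have hgain : ∑ j ∈ J, DD SS φ cap (κ j) ≤ μ * ∑ i ∈ I, DD SS φ cap (κ i) := by
    rcases J.eq_empty_or_nonempty with rfl | hJn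
    · rw [sum_empty]
      exact mul_nonneg (Nat.cast_nonneg μ) (sum_nonneg fun i hi => hD i (hI hi))
    · obtain ⟨j0, hj0, hmax⟩ := exists_max_image J (fun i => DD SS φ cap (κ i)) hJn
      have hj0' := mem_sdiff.1 (hJ hj0)
      have hD0 := hD j0 hj0'.1
      have hlt : I.card < act.card := card_lt_card ⟨hI, fun h => hj0'.2 (h hj0'.1)⟩
      have hIk' : I.card = k := by omega
      have h1 : ∑ j ∈ J, DD SS φ cap (κ j) ≤ J.card • DD SS φ cap (κ j0) :=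
        sum_le_card_nsmul _ _ _ fun j hj => hmax j hj
      have h2 : I.card • DD SS φ cap (κ j0) ≤ ∑ i ∈ I, DD SS φ cap (κ i) :=
        card_nsmul_le_sum _ _ _ fun i hi => hIf i hi j0 (hJ hj0)
      rw [nsmul_eq_mul] at h1 h2
      have h3 : (J.card : ℝ) ≤ m := by exact_mod_cast hJc
      have h4 : (m : ℝ) = μ * k := by
        rw [← hkμ]
        push_cast
        ring
      calc ∑ j ∈ J, DD SS φ cap (κ j) ≤ (J.card : ℝ) * DD SS φ cap (κ j0) := h1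
        _ ≤ m * DD SS φ cap (κ j0) := mul_le_mul_of_nonneg_right h3 hD0
        _ = μ * ((I.card : ℝ) * DD SS φ cap (κ j0)) := by rw [h4, hIk']; ring
        _ ≤ μ * ∑ i ∈ I, DD SS φ cap (κ i) := mul_le_mul_of_nonneg_left h2 (Nat.cast_nonneg μ)
  have hW : 0 ≤ ∑ i ∈ I ∪ J, (ν * g1 i + g2 i) := by
    refine sum_nonneg fun i hi => ?_
    have hia : i ∈ act := by
      rcases mem_union.1 hi with h | h
      · exact hI h
      · exact (mem_sdiff.1 (hJ h)).1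
    exact add_nonneg (mul_nonneg hν0 (H.g1n hia)) (hg2n i hia)
  have hFF : 0 ≤ FF m b := by
    have h1 := one_le_XX m b
    have h2 := XX_le_EE m b
    unfold FF
    have : 0 ≤ EE m b := by linarith
    positivity
  have hcd : ((I ∪ J).card : ℝ) ≤ 2 * m := by
    have h1 := card_union_le I J
    have h2 : (I ∪ J).card ≤ 2 * m := by omega
    exact_mod_cast h2
  have h5 : ((I ∪ J).card : ℝ) * FF m b * ∑ i ∈ I ∪ J, (ν * g1 i + g2 i) ≤
      (2 * m * FF m b + 1) * ∑ i ∈ I ∪ J, (ν * g1 i + g2 i) := by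
    refine mul_le_mul_of_nonneg_right ?_ hW
    have := mul_le_mul_of_nonneg_right hcd hFF
    linarith
  linarith

end Pool.Agent.Helper75.CG
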